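import Pool.Agent.helper52.FS.SpecE

set_option autoImplicit false

/-!
# Row fs:FWG (MP_07c750_an): the leaf sets with exceptional times are porous
-/

open scoped MatrixGroups ContDiff Topology UpperHalfPlane ComplexConjugate
open UpperHalfPlane MeasureTheory Filter Set

namespace Pool.Agent.FS

open Pool.Agent.RS
open Pool.Agent.MS (bq BB BA SF pf)
open Pool.Agent.EN (XG MG mkX mkM fl pr)

noncomputable section

theorem FWG_proof (hPOT : POT_stmt) (hGLC : RS.GLC_stmt) : FWG_stmt := by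
  intro Γ O c0 hΓ hO hO' hc0
  obtain ⟨c, T, hc, hc1, hT, h⟩ := hPOT Γ O hΓ hO hO'
  refine ⟨c, T + 1, hc, hc1, by linarith, ?_⟩
  intro χ n B g hVP s hs hsn hB v
  obtain ⟨x, hx, hw⟩ := (h g s v hs).1
  refine ⟨x, hx, ?_⟩
  rw [Set.disjoint_left]
  intro w hw1 hw2
  obtain ⟨t, ht, htO⟩ := hw w hw1
  have haa : ∀ s t : ℝ, aM (s + t) = aM s * aM t := hGLC.2.2.2.2.2.2.2.2.2.2.1
  have hl0 : lM 0 = 1 := by
    ext i j
    fin_cases i <;> fin_cases j <;> simp [lM]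
  have ht0 : 0 ≤ t := hs.trans ht.1
  have h1 : ((⌊t⌋₊ : ℕ) : ℝ) ≤ t := Nat.floor_le ht0
  have h2 : t < (⌊t⌋₊ : ℕ) + 1 := Nat.lt_floor_add_one t
  have hin : ⌊t⌋₊ < n := by
    have h3 : ((⌊t⌋₊ : ℕ) : ℝ) < n := by
      have := ht.2
      linarith
    exact_mod_cast h3
  have hiB : ⌊t⌋₊ ∉ B := by
    intro hb
    refine hB _ hb ⟨?_, ?_⟩
    · have := ht.1
      linarith
    · have := ht.2
      linarith
  refine hw2 ⌊t⌋₊ hin hiB ?_
  have h4 := hVP (g * lM w * aM t) ((⌊t⌋₊ : ℕ) - t) 0 htO (by rw [abs_le]; constructor <;> linarith) (by rw [abs_zero]; exact hc0.le)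
  rw [hl0, mul_one, mul_assoc (g * lM w), ← haa, add_sub_cancel] at h4
  exact h4

end

end Pool.Agent.FS
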