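import Pool.Agent.helper84.FS.SpecF
import Pool.Agent.helper69.FS.LFG

/-!
# Row fs:LFH (MP_07c750_an): the leaf condition for a pair of open sets (adapted from helper69's LFG)
-/

open scoped MatrixGroups ContDiff Topology UpperHalfPlane ComplexConjugate
open UpperHalfPlane MeasureTheory Filter Set

set_option autoImplicit false

namespace Pool.Agent.FS

open Pool.Agent.RS
open Pool.Agent.MS (bq BB BA SF pf)
open Pool.Agent.EN (XG MG mkX mkM fl pr)

theorem LFH_proof (hFWG : FWG_stmt) (hBWG : BWG_stmt) (hFUG : FUG_stmt) (hCNT : CNT_stmt) (hGLC : RS.GLC_stmt) : LFH_stmt := by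
  classical
  intro Γ O O' c0 hΓ hO hOn hO' hOn' hc0
  obtain ⟨c1, T1, hc1, hc1', hT1, HF⟩ := hFWG Γ O c0 hΓ hO hOn hc0
  obtain ⟨c2, T2, hc2, hc2', hT2, HB⟩ := hBWG Γ O' c0 hΓ hO' hOn' hc0
  set cc : ℝ := min c1 c2 with hcc
  set T : ℝ := max T1 T2 with hT
  have hcc0 : 0 < cc := lt_min hc1 hc2
  have hcc1 : cc < 1 := (min_le_left _ _).trans_lt hc1'
  have hT' : 1 ≤ T := hT1.trans (le_max_left _ _)
  obtain ⟨γ, K1, hγ, hK1, HU⟩ := hFUG cc T hcc0 hcc1 hT'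
  obtain ⟨ε1, hε1, hε1', HC⟩ := hCNT (γ / 8) (by positivity)
  refine ⟨min ε1 (γ / (32 * (K1 + 1))), lt_min hε1 (by positivity), (min_le_left _ _).trans_lt hε1', ?_⟩
  intro ε κ0 Q hε hεe hκ0 hκ1 hQ
  obtain ⟨σ, hσ, HBσ⟩ := HB κ0 hκ0 hκ1
  have hε2 : ε ≤ ε1 := hεe.trans (min_le_left _ _)
  have hε3 : K1 * (4 * ε) ≤ γ / 8 := by
    have h1 : ε ≤ γ / (32 * (K1 + 1)) := hεe.trans (min_le_right _ _)
    rw [le_div_iff₀ (by positivity)] at h1
    nlinarith
  -- the final smallness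
  obtain ⟨n1, hn1⟩ := exists_nat_gt ((K1 * (1 + σ) - Real.log Q) / (5 / 8 * γ))
  refine ⟨n1 + 1, ?_⟩
  intro n χ χa χn χl χ' χa' χn' χl' θ εc hn hVP hVP' hSF hSF' h01 h01' hθ hεc
  have hn0 : 1 ≤ n := by omega
  have hnr : (0 : ℝ) < n := by exact_mod_cast hn0
  have hfin : Real.exp (γ / 8 * n) ^ 2 * Real.exp (K1 * (1 + σ + 4 * ε * n) - γ * n) ≤ Q := by
    have h1 : (n1 : ℝ) ≤ n := by exact_mod_cast (by omega : n1 ≤ n)
    have h2 : (K1 * (1 + σ) - Real.log Q) / (5 / 8 * γ) < n := hn1.trans_le h1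
    rw [div_lt_iff₀ (by positivity)] at h2
    rw [← Real.exp_nat_mul, ← Real.exp_add, ← Real.le_log_iff_exp_le hQ]
    push_cast
    have h3 : K1 * (4 * ε) * n ≤ γ / 8 * n := mul_le_mul_of_nonneg_right hε3 hnr.le
    nlinarith
  intro l g g' J c hl hll hJ
  have hll' : εc / 100 ≤ εc / 100 := le_rfl
  -- zero sets
  set Z : SL(2, ℝ) → Finset ℕ := fun h => (Finset.range n).filter fun i => χ (h * aM i) = 0 with hZ
  set Z' : SL(2, ℝ) → Finset ℕ := fun h => (Finset.range n).filter fun i => χ' (h * aM i) = 0 with hZ'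
  have hZmem' : ∀ h : SL(2, ℝ), θ ((∑ i ∈ Finset.range n, χ' (h * aM i)) / n) ≠ 0 → Z' h ∈ (Finset.range n).powerset.filter (fun B : Finset ℕ => (B.card : ℝ) ≤ 2 * ε * n) := by
    intro h hh
    rw [Finset.mem_filter, Finset.mem_powerset]
    exact ⟨Finset.filter_subset _ _, LFG_card θ ε n (fun i => χ' (h * aM i)) hn0 hθ (fun i => (h01' _).2) hh⟩
  have hZne' : ∀ (h : SL(2, ℝ)) (i : ℕ), i < n → i ∉ Z' h → χ' (h * aM i) ≠ 0 := by
    intro h i hi hiZ h0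
    exact hiZ (Finset.mem_filter.mpr ⟨Finset.mem_range.mpr hi, h0⟩)
  have hZmem : ∀ h : SL(2, ℝ), θ ((∑ i ∈ Finset.range n, χ (h * aM i)) / n) ≠ 0 → Z h ∈ (Finset.range n).powerset.filter (fun B : Finset ℕ => (B.card : ℝ) ≤ 2 * ε * n) := by
    intro h hh
    rw [Finset.mem_filter, Finset.mem_powerset]
    exact ⟨Finset.filter_subset _ _, LFG_card θ ε n (fun i => χ (h * aM i)) hn0 hθ (fun i => (h01 _).2) hh⟩
  have hZne : ∀ (h : SL(2, ℝ)) (i : ℕ), i < n → i ∉ Z h → χ (h * aM i) ≠ 0 := by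
    intro h i hi hiZ h0
    exact hiZ (Finset.mem_filter.mpr ⟨Finset.mem_range.mpr hi, h0⟩)
  -- witnesses
  have hJ' : ∀ j : ℤ, ∃ B : Finset ℕ, j ∈ J → (B ∈ (Finset.range n).powerset.filter (fun B : Finset ℕ => (B.card : ℝ) ≤ 2 * ε * n) ∧
      IR.JC {h | ∀ i < n, i ∉ B → χ' (h * aM (-n) * aM i) ≠ 0} εc l (εc / 100) g j) := by
    intro j
    by_cases hj : j ∈ J
    · obtain ⟨h1, u, hu, x, τ, o, e, he, hx, hτ, ho, hW⟩ := hJ j hj
      refine ⟨Z' (e * g * lM (l * u) * nM (j * εc + x) * aM τ * lM o * aM (-n)), fun _ => ⟨hZmem' _ hW, h1, u, hu, x, τ, o, e, he, hx, hτ, ho, ?_⟩⟩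
      intro i hi hiB
      exact hZne' _ i hi hiB
    · exact ⟨∅, fun h => absurd h hj⟩
  choose P hP using hJ'
  have key := LFG_cover n ε (Real.exp (K1 * (1 + σ + 4 * ε * n) - γ * n)) J c {v | θ ((∑ i ∈ Finset.range n, χ (g' * lM v * aM i)) / n) ≠ 0}
    (fun B => {v | ∀ i < n, i ∉ B → χ (g' * lM v * aM i) ≠ 0}) P (Real.exp_nonneg _) ?_ (fun j hj => (hP j hj).1) ?_
  · refine key.trans ?_
    refine mul_le_mul_of_nonneg_right ?_ (Finset.sum_nonneg fun _ _ => by positivity)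
    refine le_trans ?_ hfin
    refine mul_le_mul_of_nonneg_right ?_ (Real.exp_nonneg _)
    exact pow_le_pow_left₀ (Nat.cast_nonneg _) (HC ε n hε hε2) 2
  · rintro v ⟨_, hv⟩
    exact ⟨Z (g' * lM v), hZmem _ hv, fun i hi hiB => hZne _ i hi hiB⟩
  · intro B hBm B' hBm'
    have hb : (B.card : ℝ) ≤ 2 * ε * n := (Finset.mem_filter.mp hBm).2
    have hb' : (B'.card : ℝ) ≤ 2 * ε * n := (Finset.mem_filter.mp hBm').2
    have hmeas : MeasurableSet {v : ℝ | ∀ i < n, i ∉ B → χ (g' * lM v * aM i) ≠ 0} := by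
      have h1 : {v : ℝ | ∀ i < n, i ∉ B → χ (g' * lM v * aM i) ≠ 0} = ⋂ i : ℕ, ⋂ (_ : i < n), ⋂ (_ : i ∉ B), {v : ℝ | χ (g' * lM v * aM i) ≠ 0} := by
        ext v
        simp
      rw [h1]
      refine MeasurableSet.iInter fun i => MeasurableSet.iInter fun _ => MeasurableSet.iInter fun _ => ?_
      exact (isOpen_ne_fun (LFG_cont hGLC Γ χ χa χn χl hSF g' i) continuous_const).measurableSet
    have h2 := HU σ n B B' {v | ∀ i < n, i ∉ B → χ (g' * lM v * aM i) ≠ 0} (J.filter fun j => P j = B') c hσ hmeas ?_ ?_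
    · refine h2.trans (mul_le_mul_of_nonneg_right ?_ (Finset.sum_nonneg fun _ _ => by positivity))
      rw [Real.exp_le_exp]
      have h3 : K1 * (1 + σ + B.card + B'.card) ≤ K1 * (1 + σ + 4 * ε * n) := mul_le_mul_of_nonneg_left (by linarith) hK1
      linarith
    · intro s hs hsn hb3 v
      obtain ⟨x, hx, hd⟩ := HF χ n B g' hVP s hs (by linarith [le_max_left T1 T2]) (fun b hbB hb4 => hb3 b hbB ⟨by linarith [le_max_left T1 T2], by linarith [le_max_left T1 T2]⟩) v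
      refine ⟨x, hx, hd.mono_left ?_⟩
      have h4 : cc * Real.exp (-s) ≤ c1 * Real.exp (-s) := mul_le_mul_of_nonneg_right (min_le_left _ _) (Real.exp_nonneg _)
      exact Ioo_subset_Ioo (by linarith) (by linarith)
    · intro s hs hsn hb3 ξ
      have hJC : ∀ j ∈ J.filter (fun j => P j = B'), IR.JC {h | ∀ i < n, i ∉ B' → χ' (h * aM (-n) * aM i) ≠ 0} εc l (εc / 100) g j := by
        intro j hj
        obtain ⟨hjJ, hjP⟩ := Finset.mem_filter.mp hj
        have := (hP j hjJ).2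
        rw [hjP] at this
        exact this
      have hb5 : ∀ b ∈ B', ¬ (s - σ - T2 ≤ b ∧ (b : ℝ) ≤ s - σ + T2) :=
        fun b hbB hb4 => hb3 b hbB ⟨by linarith [le_max_right T1 T2], by linarith [le_max_right T1 T2]⟩
      obtain ⟨y, hy, hyJ⟩ := HBσ χ' n B' εc l (εc / 100) g (J.filter fun j => P j = B') hVP' hεc hl hll le_rfl hJC s (by linarith [le_max_right T1 T2]) hsn hb5 ξ
      refine ⟨y, hy, fun j hj => le_trans ?_ (hyJ j hj)⟩
      exact mul_le_mul_of_nonneg_right (min_le_right _ _) (Real.exp_nonneg _)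

end Pool.Agent.FS
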