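import Pool.Agent.helper78.FS.Spec

/-!
# MP_55808c_co, project FS, row CNE: the sum of `al` over the triangles with corner `x` (helper65)
-/

set_option autoImplicit false

namespace Pool.Agent.helper78.FS

open Finset Real
open Classical

noncomputable section

/-- orientation of the hexagon. -/
theorem CNE_or {V : Type} {G : V → V → Prop} {col : V → Fin 7} {σ : Fin 7 → ZMod 7} {x : V} (hW : W G col x) (hσ : Function.Injective σ)
    (hP : Perf G col σ x) :
    ∃ u : ZMod 6 → V, Function.Injective u ∧ (∀ w, G x w ↔ ∃ i, w = u i) ∧ (∀ i j, G (u i) (u j) ↔ (j = i + 1 ∨ i = j + 1)) ∧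
      ∀ i, σ (col (u (i + 1))) - σ (col x) = 3 * (σ (col (u i)) - σ (col x)) := by
  obtain ⟨⟨u, hu, hN, hE⟩, hc, hx⟩ := hW
  have hG : ∀ i, G x (u i) := fun i => (hN _).2 ⟨i, rfl⟩
  have hGG : ∀ i, G (u i) (u (i + 1)) := fun i => (hE _ _).2 (Or.inl rfl)
  obtain ⟨D, hD⟩ : ∃ D : ZMod 6 → ZMod 7, ∀ i, D i = σ (col (u i)) - σ (col x) := ⟨_, fun _ => rfl⟩
  have hinj : ∀ i j, D i = D j → i = j := by
    intro i j h
    apply hu
    apply hc _ _ (hG i) (hG j)
    apply hσ
    rw [hD, hD] at h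
    linear_combination h
  have h3 : ∀ y z : ZMod 7, 3 * y = 3 * z → y = z := by decide
  have hne : ∀ i : ZMod 6, i ≠ i + 1 + 1 := by decide
  have hor : ∀ i, D (i + 1) = 3 * D i ∨ D i = 3 * D (i + 1) := by
    intro i
    rw [hD, hD]
    exact hP _ _ (hG i) (hG (i + 1)) (hGG i)
  by_cases h0 : D (0 + 1) = 3 * D 0
  · have hs : ∀ i, D (i + 1) = 3 * D i → D (i + 1 + 1) = 3 * D (i + 1) := by
      intro i hi
      rcases hor (i + 1) with h | h
      · exact h
      · exfalso
        rw [hi] at h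
        exact hne i (hinj _ _ (h3 _ _ h))
    have hn : ∀ k : ℕ, D ((k : ZMod 6) + 1) = 3 * D (k : ZMod 6) := by
      intro k
      induction k with
      | zero =>
        rw [Nat.cast_zero]
        exact h0
      | succ k ih =>
        rw [Nat.cast_succ]
        exact hs _ ih
    refine ⟨u, hu, hN, hE, fun i => ?_⟩
    have := hn i.val
    rw [ZMod.natCast_zmod_val, hD, hD] at this
    exact this
  · have h0' : D 0 = 3 * D (0 + 1) := (hor 0).resolve_left h0
    have hs : ∀ i, D i = 3 * D (i + 1) → D (i + 1) = 3 * D (i + 1 + 1) := by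
      intro i hi
      rcases hor (i + 1) with h | h
      · exfalso
        rw [← h] at hi
        exact hne i (hinj _ _ hi)
      · exact h
    have hn : ∀ k : ℕ, D (k : ZMod 6) = 3 * D ((k : ZMod 6) + 1) := by
      intro k
      induction k with
      | zero =>
        rw [Nat.cast_zero]
        exact h0'
      | succ k ih =>
        rw [Nat.cast_succ]
        exact hs _ ih
    refine ⟨fun i => u (-i), ?_, ?_, ?_, ?_⟩
    · intro i j h
      exact neg_injective (hu h)
    · intro w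
      rw [hN]
      constructor
      · rintro ⟨i, rfl⟩
        exact ⟨-i, by simp⟩
      · rintro ⟨i, rfl⟩
        exact ⟨-i, rfl⟩
    · intro i j
      rw [hE]
      revert i j
      decide
    · intro i
      have h := hn (-(i + 1)).val
      rw [ZMod.natCast_zmod_val] at h
      have e : -(i + 1) + 1 = -i := by ring
      rw [e, hD, hD] at h
      exact h

def CNE_P {V : Type} [DecidableEq V] (u : ZMod 6 → V) (q s : V) : ℤ := ∑ i, if q = u i ∧ s = u (i + 1) then 1 else 0

theorem CNE_key (A B C : Prop) [Decidable A] [Decidable B] [Decidable C] :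
    (if A ∧ B ∧ C then (1 : ℤ) else 0) = (if A then 1 else 0) * (if B ∧ C then 1 else 0) := by
  by_cases h : A <;> simp [h]

theorem CNE_sum {V : Type} [DecidableEq V] (u : ZMod 6 → V) (x p q s : V) :
    ∑ i, ind x (u i) (u (i + 1)) p q s = (if p = x then 1 else 0) * (CNE_P u q s - CNE_P u s q) +
      (if q = x then 1 else 0) * (CNE_P u s p - CNE_P u p s) + (if s = x then 1 else 0) * (CNE_P u p q - CNE_P u q p) := by
  simp only [ind, CNE_key, CNE_P, Finset.sum_add_distrib, Finset.sum_sub_distrib, ← Finset.mul_sum]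
  ring

theorem CNE_cyc (hU : UUU_stmt) (hT : TRI_stmt) {V : Type} {G : V → V → Prop} {col : V → Fin 7} {σ : Fin 7 → ZMod 7} {x : V}
    (hs : ∀ x y, G x y → G y x) (hσ : Function.Injective σ) (hP : Perf G col σ x) (q s : V) (h : Tri G x q s) :
    al col σ q s x = al col σ x q s ∧ al col σ s x q = al col σ x q s := by
  have h0 := (hT hU V G col σ x q s hs hσ hP h).1
  have h1 := congrArg Prod.fst h0
  have h2 := congrArg Prod.snd h0
  simp only [Prod.fst_add, Prod.snd_add, Prod.fst_zero, Prod.snd_zero] at h1 h2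
  unfold al det2
  constructor
  · linear_combination (dl col σ q s).1 * h2 - (dl col σ q s).2 * h1
  · linear_combination (dl col σ x q).2 * h1 - (dl col σ x q).1 * h2

theorem CNE_P1 {V : Type} [DecidableEq V] {u : ZMod 6 → V} (hu : Function.Injective u) (i : ZMod 6) :
    CNE_P u (u i) (u (i + 1)) = 1 ∧ CNE_P u (u (i + 1)) (u i) = 0 := by
  unfold CNE_P
  constructor
  · rw [Finset.sum_eq_single i]
    · simp
    · intro j _ hj
      rw [if_neg]
      rintro ⟨h, -⟩
      exact hj (hu h).symm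
    · intro h
      exact absurd (Finset.mem_univ i) h
  · apply Finset.sum_eq_zero
    intro j _
    rw [if_neg]
    rintro ⟨h, h'⟩
    have h1 := hu h
    have h2 := hu h'
    have h3 : ∀ i : ZMod 6, i ≠ i + 1 + 1 := by decide
    apply h3 i
    rw [h1]
    exact h2

theorem CNE_P0 {V : Type} [DecidableEq V] {u : ZMod 6 → V} {x : V} (hx : ∀ i, u i ≠ x) (q : V) :
    CNE_P u x q = 0 ∧ CNE_P u q x = 0 := by
  unfold CNE_P
  constructor
  · apply Finset.sum_eq_zero
    intro j _
    rw [if_neg]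
    rintro ⟨h, -⟩
    exact hx _ h.symm
  · apply Finset.sum_eq_zero
    intro j _
    rw [if_neg]
    rintro ⟨-, h⟩
    exact hx _ h.symm

theorem CNE_al (hU : UUU_stmt) (hT : TRI_stmt) {V : Type} [DecidableEq V] {G : V → V → Prop} {col : V → Fin 7} {σ : Fin 7 → ZMod 7} {x : V}
    (hs : ∀ x y, G x y → G y x) (hir : ∀ x, ¬ G x x) (hσ : Function.Injective σ) (hP : Perf G col σ x) (hcx : ∀ w, G x w → col w ≠ col x)
    {u : ZMod 6 → V} (hu : Function.Injective u) (hN : ∀ w, G x w ↔ ∃ i, w = u i) (hE : ∀ i j, G (u i) (u j) ↔ (j = i + 1 ∨ i = j + 1))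
    (hD : ∀ i, σ (col (u (i + 1))) - σ (col x) = 3 * (σ (col (u i)) - σ (col x))) (q s : V) (h : Tri G x q s) :
    al col σ x q s = CNE_P u q s - CNE_P u s q := by
  have hU' := hU
  obtain ⟨hU0, hUn, -⟩ := hU'
  have hux : ∀ i, u i ≠ x := by
    intro i hi
    have h1 : G x (u i) := (hN _).2 ⟨i, rfl⟩
    rw [hi] at h1
    exact hir x h1
  have h' := h
  obtain ⟨h1, h2, h3⟩ := h'
  rcases h1 with h1 | h1
  · subst h1
    rw [(CNE_P0 hux s).1, (CNE_P0 hux s).2]
    unfold al dl
    rw [sub_self, hU0]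
    simp [det2]
  rcases h3 with h3 | h3
  · subst h3
    rw [(CNE_P0 hux q).1, (CNE_P0 hux q).2]
    unfold al dl
    rw [← neg_sub (σ (col q)) (σ (col s)), hUn]
    simp only [det2, Prod.fst_neg, Prod.snd_neg]
    ring
  rcases h2 with h2 | h2
  · subst h2
    unfold al dl
    rw [sub_self (σ (col q)), hU0]
    simp [det2]
  obtain ⟨i, hi⟩ := (hN q).1 h1
  obtain ⟨j, hj⟩ := (hN s).1 (hs _ _ h3)
  subst hi
  subst hj
  rcases (hE i j).1 h2 with h4 | h4
  · subst h4
    rw [(CNE_P1 hu i).1, (CNE_P1 hu i).2]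
    have h5 := (hT hU V G col σ x (u i) (u (i + 1)) hs hσ hP h).2 (hcx _ h1) (hD i)
    rw [h5.1]
    norm_num
  · subst h4
    rw [(CNE_P1 hu j).1, (CNE_P1 hu j).2]
    have h6 : Tri G x (u j) (u (j + 1)) := ⟨Or.inr (hs _ _ h3), Or.inr (hs _ _ h2), Or.inr (hs _ _ h1)⟩
    have h5 := (hT hU V G col σ x (u j) (u (j + 1)) hs hσ hP h6).2 (hcx _ (hs _ _ h3)) (hD j)
    rw [h5.2.2.2.1]
    norm_num

theorem CNE : CNE_stmt := by
  intro hU hT _ _ V ι _ _ G col σ a b c x n hs hir hC hTri hσ hW hP hDeg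
  obtain ⟨u, hu, hN, hE, hD⟩ := CNE_or hW hσ hP
  have hterm : ∀ f, ((if a f = x then 1 else 0) + (if b f = x then 1 else 0) + (if c f = x then 1 else 0)) * al col σ (a f) (b f) (c f)
      = ∑ i, ind x (u i) (u (i + 1)) (a f) (b f) (c f) := by
    intro f
    rw [CNE_sum]
    have hA := CNE_al hU hT hs hir hσ hP hW.2.2 hu hN hE hD
    have hCy := CNE_cyc hU hT hs hσ hP
    obtain ⟨t1, t2, t3⟩ := hTri f
    have e1 : (if a f = x then (1 : ℤ) else 0) * al col σ (a f) (b f) (c f) = (if a f = x then 1 else 0) * (CNE_P u (b f) (c f) - CNE_P u (c f) (b f)) := by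
      by_cases h : a f = x
      · rw [if_pos h]
        rw [h] at t1 t3 ⊢
        rw [hA (b f) (c f) ⟨t1, t2, t3⟩]
      · rw [if_neg h]
        ring
    have e2 : (if b f = x then (1 : ℤ) else 0) * al col σ (a f) (b f) (c f) = (if b f = x then 1 else 0) * (CNE_P u (c f) (a f) - CNE_P u (a f) (c f)) := by
      by_cases h : b f = x
      · rw [if_pos h]
        rw [h] at t1 t2 ⊢
        rw [(hCy (c f) (a f) ⟨t2, t3, t1⟩).2, hA (c f) (a f) ⟨t2, t3, t1⟩]
      · rw [if_neg h]
        ring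
    have e3 : (if c f = x then (1 : ℤ) else 0) * al col σ (a f) (b f) (c f) = (if c f = x then 1 else 0) * (CNE_P u (a f) (b f) - CNE_P u (b f) (a f)) := by
      by_cases h : c f = x
      · rw [if_pos h]
        rw [h] at t2 t3 ⊢
        rw [(hCy (a f) (b f) ⟨t3, t1, t2⟩).1, hA (a f) (b f) ⟨t3, t1, t2⟩]
      · rw [if_neg h]
        ring
    rw [add_mul, add_mul, e1, e2, e3]
  unfold SS
  rw [Finset.sum_congr rfl fun f _ => hterm f, Finset.sum_comm]
  have hcnt : ∀ i, ∑ f, ind x (u i) (u (i + 1)) (a f) (b f) (c f) = n := by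
    intro i
    exact hDeg (u i) (u (i + 1)) ((hN _).2 ⟨i, rfl⟩) ((hN _).2 ⟨i + 1, rfl⟩) ((hE _ _).2 (Or.inl rfl)) (hD i)
  rw [Finset.sum_congr rfl fun i _ => hcnt i]
  simp [ZMod.card]

end

end Pool.Agent.helper78.FS
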